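import Mathlib
import Pool.Agent.H491.Az16

set_option autoImplicit false

/-!
# A positive proportion, independent of the depth, of the multiple zeta values is transcendental; the rank of tuples

Zagier's conjecture contains that the spaces `Z_N` form a direct sum, so that every multiple zeta value of positive weight is
transcendental. Let `L` be a subfield of `ℝ` over which `π` is transcendental, for example the field of the real
algebraic numbers, and let `E` be a subspace of `ℝ` of dimension at most `r` over `L` (for example `E = L`, or the space
spanned over `L` by `r` given multiple zeta values).

Theorem. Let `0 ≤ q ≤ D` and `0 ≤ p < f(D, D - q) / D!`, where `f(D, e)` is the number of the permutations of `D` elements that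
fix at least one of `e` given elements or at least two elements. Let `n ≥ C(D, q, p) (r + M + 1)` and let `m_1, …, m_M` be
arbitrary. Choose independently at random, for `i = 1, …, M`, an index `k^(i)` of depth `D` with entries between `2 m_i + 2` and
`2 m_i + 2 n + 1`, exactly `q` of them odd. Then the dimension over `L` of the space spanned by `ζ(k^(1)), …, ζ(k^(M))` modulo
`E` dominates the binomial distribution with parameters `M` and `p`: for all `j` it is at least `j` with probability at least
`∑_(i ≥ j) binom(M, i) p ^ i (1 - p) ^ (M - i)`.

For `M = 1` this says that the proportion of the indices with a value outside of `E` is at least `p` in every window. For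
`E = L` and `j = M` it says that the numbers `1, ζ(k^(1)), …, ζ(k^(M))` are linearly independent over `L` with probability at
least `p ^ M`, and by the law of large numbers their rank is at least `(p - δ) M` with high probability; here the windows can be
chosen such that the weights of the indices are different from each other, as in Zagier's conjecture.

So the proportion tends to `1 - 1 / e = 0.63…` for `D → ∞` if all entries are even, and to `1 - 2 / e = 0.26…` if all entries
are odd, and it is at least `1 / 6` for all `D ≥ 2` and all `q`; earlier only the proportions `1 / D!` and (for `q < D`)
`1 / D` were known (to us).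

Proof. Let `a_1, …, a_D` be the letters, `c` a rational function on the orderings and `G_c(a)` the sum of the
`c(σ) ζ(a ∘ σ)`. Let `U_i` be the space of the `c` that do not depend on the place of the letter `i`, and let `R_i` be the
operator that moves the letter `i` to the front. The product `Θ` of the `1 - R_i` over all letters is a projection with
kernel `∑ U_i`, and its trace is the number of the permutations without fixed points. The product of `R_i` and the `1 - R_j`,
`j ≠ i`, is a projection too, and its trace is the number of the permutations with `i` as the only fixed point. So if fewer
than `f` of the orderings have values outside of `E`, there is a `c ≠ 0` with `G_c(a) ∈ E` and, with `Θ' = ∏ (1 - R_j)` over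
some of the letters, `c_0 = Θ' c ≠ 0` does not depend on the place of an even letter, or of two odd letters. It is to be
shown that for a fixed `c` this happens only for few `a`. If the set of these `a` has positive density, it contains a pattern
of bounded shape far from the origin: a box, a cube with a side in each direction `e_i - e_j`, and an arithmetically free
direction `2 b e_(i_0)` (with the sides of the box and of the cube bounded in terms of `ε`, and `b` bounded by a multiple of
`r + 1`). The alternating sum over the cube kills all merged terms of the stuffle products, except, in the
second case, those in which the two odd letters are merged to an even one; for them one takes only one side of the cube. Real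
coefficients on the sides of the box which annihilate the zeta values of the other letters leave
`∑_v ζ(2 b + v) w_v ∈ E'` with even `v` for all `b`, so all `w_v = 0` because all minors of the matrix
`ζ(2 (i + j)) / π ^ (2 (i + j))` are nonzero. But for large `a` the coefficients can be chosen such that the numbers `w_v`
are close to those given by finitely many places, and these are `c_0 ≠ 0` times a product of factors `m ^ (-s) - n ^ (-s)`.
This proves the case `M = 1`. The general case follows by induction because `C` does not depend on `E`: one may take the span of
`E` and of the values chosen before instead of `E`.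
-/

namespace Pool.Agent.Results.MP_2000e9_nt.FixedPoints

/-- the multiple zeta value `ζ(k_1, …, k_D) = ∑_{n_1 > ⋯ > n_D ≥ 1} n_1 ^ (-k_1) ⋯ n_D ^ (-k_D)` -/
noncomputable def zeta {D : ℕ} (k : Fin D → ℕ) : ℝ :=
  ∑' n : {n : Fin D → ℕ // StrictAnti n ∧ ∀ i, 1 ≤ n i}, ∏ i, (((n.1 i : ℕ) : ℝ) ^ k i)⁻¹

/-- the indices of depth `D` with entries between `2 m + 2` and `2 m + 2 n + 1`, exactly `q` of them odd -/
def indices (D q m n : ℕ) : Finset (Fin D → ℕ) :=
  (Fintype.piFinset fun _ => Finset.Icc (2 * m + 2) (2 * m + 2 * n + 1)).filter fun k =>
    (Finset.univ.filter fun i => Odd (k i)).card = q

open Classical in
/-- the number of the permutations of `D` elements that fix at least one of the first `e` elements or at least two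
elements -/
noncomputable def fixCount (D e : ℕ) : ℕ :=
  ((Finset.univ : Finset (Equiv.Perm (Fin D))).filter fun π =>
    (∃ i : Fin D, (i : ℕ) < e ∧ π i = i) ∨ ∃ i j, i ≠ j ∧ π i = i ∧ π j = j).card

/-- the probability that a binomial random variable with parameters `M` and `p` is at least `j` -/
noncomputable def binomialTail (p : ℝ) (M j : ℕ) : ℝ :=
  ∑ i ∈ Finset.range (M + 1), if j ≤ i then (M.choose i : ℝ) * p ^ i * (1 - p) ^ (M - i) else 0

/-- the dimension over `L` of the space spanned by `v_1, …, v_M` modulo `E` -/
noncomputable def rankModulo {L : Subfield ℝ} (E : Submodule L ℝ) {M : ℕ} (v : Fin M → ℝ) : ℕ :=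
  Module.finrank L (Submodule.span L (Set.range fun i => E.mkQ (v i)))

open Classical in
theorem result (D q : ℕ) (p : ℝ) (hp0 : 0 ≤ p) (hp : p < (fixCount D (D - q) : ℝ) / D.factorial) :
    ∃ C : ℕ, ∀ n r M : ℕ, C * (r + M + 1) ≤ n → ∀ (L : Subfield ℝ), Transcendental L Real.pi → ∀ (E : Submodule L ℝ),
      Module.rank L E ≤ (r : Cardinal) → ∀ (m : Fin M → ℕ) (j : ℕ),
      binomialTail p M j * ((Fintype.piFinset fun i => indices D q (m i) n).card : ℝ) ≤
        (((Fintype.piFinset fun i => indices D q (m i) n).filter fun k => j ≤ rankModulo E fun i => zeta (k i)).card : ℝ) :=
  Pool.Agent.H491.Der.tuples_rank D q p hp0 hp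

end Pool.Agent.Results.MP_2000e9_nt.FixedPoints
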