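import Mathlib
import Pool.Agent.H491.Eff2
import Pool.Agent.H491.Conv

set_option autoImplicit false

/-!
# Exponentially many transcendental multiple zeta values in every weight

Let `N ≥ 35` and let `L` be a space of real numbers of dimension at most one over the field `A` of the real algebraic
numbers which does not contain `π ^ N` (for example `L = A`, or `L = A x` for a number `x` that is not an algebraic
multiple of `π ^ N`). Then at least `2 ^ ⌊N / 5⌋ / 32` of the multiple zeta values of weight `N` are not in `L`. In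
particular every weight `N ≥ 35` has at least `2 ^ ⌊N / 5⌋ / 32` indices with a transcendental multiple zeta value. The
bound is explicit and unconditional; in odd weights not a single transcendental multiple zeta value is known.

Proof. Let `T` be the set of the indices of weight `N` with `ζ(w) ∉ L`, and `j ≤ N / 5` with `j ≡ N` modulo `2`.

Suppose first that `N` is even. For an index `u` of weight `j` the product of `ζ(u)` and `ζ(N - j)`, a rational multiple of
`π ^ (N - j)`, is a sum of multiple zeta values of weight `N`, so `ζ(u) π ^ (N - j)` is in `L` for all `u` with few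
exceptions, if `T` is small. In the same way `ζ(v) π ^ j` is in `L` for most indices `v` of weight `N - j`. For two such
indices the product `ζ(u) ζ(v)` is not in `L`, as otherwise `π ^ N` would be in `L`. So one of the terms of the stuffle
product of `u` and `v` is in `T`. As an index of weight `N` is a term of at most `binom(N, j)` such products, `T` has at
least `2 ^ (N - 6) / binom(N, j)` elements, or `T` was not small.

If `N` is odd and `ζ(3)` is an algebraic multiple of `π ^ 3`, we use `ζ(v) ζ(3) ζ(j - 3)` in place of `ζ(v) ζ(j)`. If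
`ζ(3)` is not such a multiple, then `ζ(u) ζ(3) ^ 2` and `ζ(u) ζ(6)` are not both in `L`, for all indices `u` of weight
`N - 6`, and so `T` has at least `2 ^ (N - 8) / binom(N, 6)` elements.
-/

namespace Pool.Agent.Results.MP_2000e9_nt.ManyTranscendental

/-- the field of the real algebraic numbers -/
noncomputable abbrev RealAlg : IntermediateField ℚ ℝ := algebraicClosure ℚ ℝ

/-- the indices `(n_1, …, n_r)` of weight `N` with `n_i ≥ 1` and `n_r ≥ 2` -/
def Index (N : ℕ) : Set (List ℕ) := {s | (∀ a ∈ s, 1 ≤ a) ∧ (∀ a ∈ s.getLast?, 2 ≤ a) ∧ s.sum = N}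

/-- the multiple zeta value `ζ(n_1, …, n_r) = ∑_{0 < k_1 < ⋯ < k_r} k_1 ^ (-n_1) ⋯ k_r ^ (-n_r)` -/
noncomputable def zeta (s : List ℕ) : ℝ :=
  ∑' k : {k : Fin s.length → ℕ // StrictMono k ∧ ∀ i, 1 ≤ k i}, ∏ i, (((k.1 i : ℕ) : ℝ) ^ s.get i)⁻¹

open Pool.Agent.H447R2.MZ Pool.Agent.H491

theorem mem_Index {N : ℕ} {s : List ℕ} : s ∈ Index N ↔ Adm s.reverse ∧ s.reverse.sum = N := by
  constructor
  · rintro ⟨h1, h2, h3⟩
    refine ⟨⟨fun a ha => h1 a (List.mem_reverse.1 ha), fun a t e => ?_⟩, ?_⟩
    · apply h2 a
      rw [← List.head?_reverse, e]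
      rfl
    · rw [List.sum_reverse]
      exact h3
  · rintro ⟨⟨h1, h2⟩, h3⟩
    rw [List.sum_reverse] at h3
    refine ⟨fun a ha => h1 a (List.mem_reverse.2 ha), ?_, h3⟩
    intro a ha
    rw [← List.head?_reverse] at ha
    rcases hs : s.reverse with _ | ⟨b, t⟩
    · rw [hs] at ha
      simp at ha
    · rw [hs] at ha
      simp only [List.head?_cons, Option.mem_def, Option.some.injEq] at ha
      subst ha
      exact h2 b t hs

theorem zeta_eq (s : List ℕ) (hs : Adm s.reverse) : zeta s = val s.reverse := (Hit.val_eq_tsum_mono s hs).symm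

theorem result (N : ℕ) (hN : 35 ≤ N) (L : Submodule RealAlg ℝ) (hL : Module.rank RealAlg L ≤ 1)
    (hpi : Real.pi ^ N ∉ L) : 2 ^ (N / 5) ≤ 32 * {s ∈ Index N | zeta s ∉ L}.ncard := by
  have h := Hit.eff N hN L hL hpi
  have e1 : {s ∈ Index N | zeta s ∉ L} = List.reverse '' (↑(Hit.outside N L) : Set (List ℕ)) := by
    ext s
    rw [Set.mem_sep_iff, Set.mem_image]
    constructor
    · rintro ⟨h1, h2⟩
      refine ⟨s.reverse, ?_, List.reverse_reverse s⟩
      rw [mem_Index] at h1
      rw [Finset.mem_coe, Hit.mem_outside]
      rw [zeta_eq s h1.1] at h2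
      exact ⟨h1, h2⟩
    · rintro ⟨t, ht, rfl⟩
      rw [Finset.mem_coe, Hit.mem_outside] at ht
      have h1 : t.reverse ∈ Index N := by
        rw [mem_Index, List.reverse_reverse]
        exact ht.1
      refine ⟨h1, ?_⟩
      rw [zeta_eq _ (mem_Index.1 h1).1, List.reverse_reverse]
      exact ht.2
  rw [e1, Set.ncard_image_of_injective _ List.reverse_injective, Set.ncard_coe_finset]
  exact h

end Pool.Agent.Results.MP_2000e9_nt.ManyTranscendental
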