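import Mathlib
import Pool.Agent.H491.Sq4

set_option autoImplicit false

/-!
# At least half of the double zeta values of odd weight are transcendental

The question asks in particular whether a double zeta value can satisfy a linear relation with `1` over `ℚ` (weights `0` and
`w`). In odd weight `ζ(x, y)` is a combination of the products `π ^ (2 j) ζ(w - 2 j)`, about which hardly anything is known.
Let `L` be a subfield of `ℝ` over which `π` is transcendental, for example the field of the real algebraic numbers, and let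
`E` be a subspace of `ℝ` of dimension at most `r` over `L`.

(1) Let `3 ≤ n < m` be odd. There are at most `r + 1` odd numbers `b > m` such that the four double zeta values `ζ(b - n, n)`,
`ζ(n, b - n)`, `ζ(b - m, m)`, `ζ(m, b - m)` of weight `b` are all in `E`.

(2) At least `(N ^ 2 - 3 N) / 2 - √((r + 1) N ^ 3)` of the `N (N - 1)` double zeta values `ζ(x, y)` with `x, y ≥ 2` of
odd weight `x + y ≤ 2 N + 1` are not in `E`: at least half of them asymptotically, as long as the dimension of `E` is small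
compared with `N`.

Proof. If `ζ(b - n, n)` and `ζ(n, b - n)` are in `E` then `ζ(b - n) ζ(n) - ζ(b)` is in `E`. So in (1)
`ζ(b - n) ζ(n) - ζ(b - m) ζ(m)` is in `E`. As `ζ(2 k) = ρ_k π ^ (2 k)`, `ρ_k` rational, this is `π ^ b (ρ X - ρ' Y)`
with fixed real numbers `X = ζ(n) / π ^ n`, `Y = ζ(m) / π ^ m`. Relations over `L` between such numbers with different
leading terms give a matrix of polynomials in `π ^ 2` with determinant zero; its leading coefficient is a minor of
`(ρ_(b + j))` which is nonzero as the sequence `ζ(2 k)` is strictly log-convex. So there are at most `r + 1` numbers `b`.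
(2) follows by counting the triples `n, m, b`.
-/

namespace Pool.Agent.Results.MP_2000e9_nt.OddWeightDoubleZetas

/-- the multiple zeta value `ζ(k_1, …, k_D) = ∑_{n_1 > ⋯ > n_D ≥ 1} n_1 ^ (-k_1) ⋯ n_D ^ (-k_D)` -/
noncomputable def zeta {D : ℕ} (k : Fin D → ℕ) : ℝ :=
  ∑' n : {n : Fin D → ℕ // StrictAnti n ∧ ∀ i, 1 ≤ n i}, ∏ i, (((n.1 i : ℕ) : ℝ) ^ k i)⁻¹

/-- the pairs of integers `x, y ≥ 2` with `x + y` odd and at most `K` -/
def pairs (K : ℕ) : Finset (ℕ × ℕ) :=
  (Finset.Icc 2 K ×ˢ Finset.Icc 2 K).filter fun p => Odd (p.1 + p.2) ∧ p.1 + p.2 ≤ K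

open Pool.Agent.H491

theorem be_mem {L : Subfield ℝ} (E : Submodule L ℝ) (i j : ℕ) (hij : i < j)
    (h1 : zeta ![2 * (j - i), 2 * i + 3] ∈ E) (h2 : zeta ![2 * i + 3, 2 * (j - i)] ∈ E) : Sq.be i j ∈ E := by
  by_contra h
  have e : 2 * j + 3 = 2 * (j - i) + (2 * i + 3) := by omega
  rw [Sq.be, e] at h
  rcases Sq.mem_of_pair E (2 * (j - i)) (2 * i + 3) (by omega) (by omega) h with h | h
  · exact h h1
  · exact h h2

open Classical in
theorem result (L : Subfield ℝ) (hL : Transcendental L Real.pi) (E : Submodule L ℝ) (r : ℕ) (hE : Module.rank L E ≤ r) :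
    (∀ n m : ℕ, 3 ≤ n → n < m → Odd n → Odd m → ∀ B : Finset ℕ,
      (∀ b ∈ B, m < b ∧ Odd b ∧ zeta ![b - n, n] ∈ E ∧ zeta ![n, b - n] ∈ E ∧ zeta ![b - m, m] ∈ E ∧ zeta ![m, b - m] ∈ E) →
      B.card ≤ r + 1) ∧
    ∀ N : ℕ, (N : ℝ) ^ 2 - 3 * N - 2 * √((r + 1) * (N : ℝ) ^ 3) ≤
      2 * (((pairs (2 * N + 1)).filter fun p : ℕ × ℕ => zeta ![p.1, p.2] ∉ E).card : ℝ) := by
  constructor
  · intro n m hn hnm on om B hB
    obtain ⟨n', rfl⟩ := on
    obtain ⟨m', rfl⟩ := om
    obtain ⟨i, rfl⟩ := Nat.exists_eq_add_of_le' (show 1 ≤ n' by omega)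
    obtain ⟨i', rfl⟩ := Nat.exists_eq_add_of_le' (show 1 ≤ m' by omega)
    have hinj : Set.InjOn (fun b => (b - 3) / 2) B := by
      intro x hx y hy h
      obtain ⟨h1, ⟨x', rfl⟩, -⟩ := hB x hx
      obtain ⟨h2, ⟨y', rfl⟩, -⟩ := hB y hy
      simp only at h
      omega
    rw [← Finset.card_image_of_injOn hinj]
    refine Sq.mixed_common hL E r hE i i' (by omega) _ ?_
    intro j hj
    rw [Finset.mem_image] at hj
    obtain ⟨b, hb, rfl⟩ := hj
    obtain ⟨h1, ⟨x, rfl⟩, h3, h4, h5, h6⟩ := hB b hb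
    obtain ⟨j, rfl⟩ := Nat.exists_eq_add_of_le' (show 1 ≤ x by omega)
    have e0 : (2 * (j + 1) + 1 - 3) / 2 = j := by omega
    rw [e0]
    have e1 : 2 * (j + 1) + 1 - (2 * (i + 1) + 1) = 2 * (j - i) := by omega
    have e2 : 2 * (j + 1) + 1 - (2 * (i' + 1) + 1) = 2 * (j - i') := by omega
    have e3 : 2 * (i + 1) + 1 = 2 * i + 3 := by ring
    have e4 : 2 * (i' + 1) + 1 = 2 * i' + 3 := by ring
    rw [e1, e3] at h3 h4
    rw [e2, e4] at h5 h6
    exact ⟨by omega, be_mem E i j (by omega) h3 h4, be_mem E i' j (by omega) h5 h6⟩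
  · intro N
    set T := (Finset.range N ×ˢ Finset.range N).filter fun p : ℕ × ℕ => p.1 < p.2 with hT
    set S := T.filter fun p : ℕ × ℕ => Sq.be p.1 p.2 ∈ E with hS
    have h1 := Sq.mixed_count hL E r hE N S ((Finset.filter_subset _ _).trans (Finset.filter_subset _ _))
      (fun p hp => ⟨(Finset.mem_filter.1 (Finset.mem_filter.1 hp).1).2, (Finset.mem_filter.1 hp).2⟩)
    have hcard := Sq.card_lt N
    rw [← hT] at hcard
    let f : ℕ × ℕ → ℕ × ℕ := fun p => if zeta ![2 * (p.2 - p.1), 2 * p.1 + 3] ∉ E then (2 * (p.2 - p.1), 2 * p.1 + 3)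
      else (2 * p.1 + 3, 2 * (p.2 - p.1))
    have h2 : (T \ S).card ≤ ((pairs (2 * N + 1)).filter fun p : ℕ × ℕ => zeta ![p.1, p.2] ∉ E).card := by
      apply Finset.card_le_card_of_injOn f
      · intro p hp
        rw [Finset.mem_coe, Finset.mem_sdiff] at hp
        obtain ⟨h3, h4⟩ := hp
        have h5 := h3
        rw [hT, Finset.mem_filter, Finset.mem_product, Finset.mem_range, Finset.mem_range] at h5
        obtain ⟨⟨h6, h7⟩, h8⟩ := h5
        have h9 : Sq.be p.1 p.2 ∉ E := fun h => h4 (Finset.mem_filter.2 ⟨h3, h⟩)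
        rw [Finset.mem_coe, Finset.mem_filter, pairs, Finset.mem_filter, Finset.mem_product, Finset.mem_Icc, Finset.mem_Icc]
        by_cases h : zeta ![2 * (p.2 - p.1), 2 * p.1 + 3] ∉ E
        · simp only [f, if_pos h]
          refine ⟨⟨⟨⟨by omega, by omega⟩, by omega, by omega⟩, ?_, by omega⟩, h⟩
          exact ⟨p.2 - p.1 + p.1 + 1, by ring⟩
        · simp only [f, if_neg h]
          refine ⟨⟨⟨⟨by omega, by omega⟩, by omega, by omega⟩, ?_, by omega⟩, ?_⟩
          · exact ⟨p.2 - p.1 + p.1 + 1, by ring⟩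
          · intro h'
            exact h9 (be_mem E p.1 p.2 h8 (not_not.1 h) h')
      · intro p hp q hq hpq
        rw [Finset.mem_coe, Finset.mem_sdiff, hT, Finset.mem_filter] at hp hq
        have hp' := hp.1.2
        have hq' := hq.1.2
        simp only [f] at hpq
        apply Prod.ext <;> split_ifs at hpq <;> rw [Prod.mk.injEq] at hpq <;> omega
    have h3 : T.card ≤ S.card + (T \ S).card := by
      have := Finset.card_sdiff_add_card_eq_card (Finset.filter_subset (fun p : ℕ × ℕ => Sq.be p.1 p.2 ∈ E) T)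
      rw [← hS] at this
      omega
    have h4 : (2 * T.card + N : ℝ) = (N : ℝ) ^ 2 := by exact_mod_cast hcard
    have h5 : (T.card : ℝ) ≤ S.card + (T \ S).card := by exact_mod_cast h3
    have h6 : ((T \ S).card : ℝ) ≤ ((pairs (2 * N + 1)).filter fun p : ℕ × ℕ => zeta ![p.1, p.2] ∉ E).card := by
      exact_mod_cast h2
    linarith

end Pool.Agent.Results.MP_2000e9_nt.OddWeightDoubleZetas
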