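import Mathlib
import Pool.Agent.H491.Lin
import Pool.Agent.H491.Conv

set_option autoImplicit false

/-!
# Random elements of the spaces of multiple zeta values of distinct weights are linearly independent

Q1 says in particular that the sum of the spaces `Z_N` is direct: nonzero elements of `Z_{N_1}, …, Z_{N_r}`, for distinct
weights `N_i ≥ 1`, are linearly independent, also together with `1`. We show, without any assumption, that this is true
for random elements with a probability exponentially close to `1`, and over the field of all real algebraic numbers.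

For each index `w` let `p_w ≠ q_w` be real algebraic numbers (for example `0, 1` or `-1, 1`). The elements
`z_i = ∑_{wt(w) = N_i} a_w ζ(w)` have coefficients `a_w ∈ {p_w, q_w}`, so there are `∏_i 2 ^ (2 ^ (N_i - 2))` choices. There
is an `m ≥ 1` such that for all `r` and all distinct `N_1, …, N_r ≥ 2 m r + 2` the numbers `1, z_1, …, z_r` are linearly
independent over the real algebraic numbers, with the exception of at most the part
`∑_i (binom(N_i, 2 m r) / 2 ^ (N_i - 2 m r - 2)) ^ (1 / 2)` of all choices. For a fixed `r` this is at most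
`∑_i c N_i ^ C 2 ^ (-N_i / 2)`, and it is still exponentially small if `r` is at most a small multiple of the smallest
weight.

Proof. There is an `m` such that a space `E` of dimension at most `r`, spanned over the real algebraic numbers by multiple
zeta values of weights different from `N`, misses at least `2 ^ (N - 2 m r - 2) / binom(N, 2 m r)` of the multiple zeta
values of weight `N` (stuffle product with powers of a suitable multiple zeta value of weight `m` and of `π`; or the
transcendence of `π`, if all `ζ(w) / π ^ |w|` are algebraic). The inequality of Littlewood, Offord and Erdős in the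
rational vector space `ℝ / E` bounds the number of the combinations that lie in `E`.
-/

namespace Pool.Agent.Results.MP_2000e9_nt.RandomElements

/-- the field of the real algebraic numbers -/
noncomputable abbrev RealAlg : IntermediateField ℚ ℝ := algebraicClosure ℚ ℝ

/-- the indices `(n_1, …, n_r)` of weight `N` with `n_i ≥ 1` and `n_r ≥ 2` (the empty index for `N = 0`): the
compositions of `N` whose last part is at least two -/
def Index (N : ℕ) : Finset (List ℕ) :=
  ((Finset.univ : Finset (Composition N)).image fun c => c.blocks).filter fun s => ∀ a ∈ s.getLast?, 2 ≤ a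

/-- the multiple zeta value `ζ(n_1, …, n_r) = ∑_{0 < k_1 < ⋯ < k_r} k_1 ^ (-n_1) ⋯ k_r ^ (-n_r)` -/
noncomputable def zeta (s : List ℕ) : ℝ :=
  ∑' k : {k : Fin s.length → ℕ // StrictMono k ∧ ∀ i, 1 ≤ k i}, ∏ i, (((k.1 i : ℕ) : ℝ) ^ s.get i)⁻¹

/-- the combination of all multiple zeta values of weight `N` with the coefficients `q w` for `w` in `A` and `p w` for
`w` not in `A` -/
noncomputable def combination (p q : List ℕ → RealAlg) (N : ℕ) (A : Finset (List ℕ)) : ℝ :=
  ∑ w ∈ Index N, ((if w ∈ A then q w else p w : RealAlg) : ℝ) * zeta w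

open Pool.Agent.H447R2.MZ Pool.Agent.H491

theorem mem_Index {N : ℕ} {s : List ℕ} : s ∈ Index N ↔ Adm s.reverse ∧ s.reverse.sum = N := by
  rw [Index, Finset.mem_filter, Finset.mem_image]
  constructor
  · rintro ⟨⟨c, -, rfl⟩, h⟩
    refine ⟨⟨fun a ha => c.blocks_pos (List.mem_reverse.1 ha), fun a t e => ?_⟩, ?_⟩
    · apply h a
      rw [← List.head?_reverse, e]
      rfl
    · rw [List.sum_reverse]
      exact c.blocks_sum
  · rintro ⟨⟨h1, h2⟩, h3⟩
    rw [List.sum_reverse] at h3
    refine ⟨⟨⟨s, fun {a} ha => h1 a (List.mem_reverse.2 ha), h3⟩, Finset.mem_univ _, rfl⟩, ?_⟩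
    intro a ha
    rw [← List.head?_reverse] at ha
    rcases hs : s.reverse with _ | ⟨b, t⟩
    · rw [hs] at ha
      simp at ha
    · rw [hs] at ha
      simp only [List.head?_cons, Option.mem_def, Option.some.injEq] at ha
      subst ha
      exact h2 b t hs

theorem Index_eq (N : ℕ) : Index N = (Hit.W N).image List.reverse := by
  ext s
  rw [Finset.mem_image]
  constructor
  · intro hs
    exact ⟨s.reverse, Hit.mem_W.2 (mem_Index.1 hs), List.reverse_reverse s⟩
  · rintro ⟨t, ht, rfl⟩
    rw [mem_Index, List.reverse_reverse]
    exact Hit.mem_W.1 ht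

theorem card_Index (N : ℕ) : (Index N).card = (Hit.W N).card := by
  rw [Index_eq, Finset.card_image_of_injective _ List.reverse_injective]

theorem zeta_eq (s : List ℕ) (hs : Adm s.reverse) : zeta s = val s.reverse := (Hit.val_eq_tsum_mono s hs).symm

theorem combination_eq (p q : List ℕ → RealAlg) (N : ℕ) (A : Finset (List ℕ)) :
    combination p q N A = Hit.zz (fun w => p w.reverse) (fun w => q w.reverse) N (A.image List.reverse) := by
  rw [combination, Hit.zz, Index_eq, Finset.sum_image fun a _ b _ h => List.reverse_injective h]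
  refine Finset.sum_congr rfl fun w hw => ?_
  have h1 : Adm w := (Hit.mem_W.1 hw).1
  have h2 : zeta w.reverse = val w := by
    rw [zeta_eq _ (by rwa [List.reverse_reverse]), List.reverse_reverse]
  have h3 : w.reverse ∈ A ↔ w ∈ A.image List.reverse := by
    rw [Finset.mem_image]
    constructor
    · intro h
      exact ⟨_, h, List.reverse_reverse w⟩
    · rintro ⟨t, ht, rfl⟩
      rwa [List.reverse_reverse]
  rw [h2]
  simp only [h3]

theorem result : ∃ m : ℕ, 1 ≤ m ∧ ∀ (r : ℕ) (N : Fin r → ℕ), Function.Injective N → (∀ i, 2 * (m * r) + 2 ≤ N i) →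
    ∀ p q : List ℕ → RealAlg, (∀ w, p w ≠ q w) →
      ({A : Fin r → Finset (List ℕ) | (∀ i, A i ⊆ Index (N i)) ∧
        ¬ LinearIndependent RealAlg (Fin.cons 1 (fun i => combination p q (N i) (A i)) : Fin (r + 1) → ℝ)}.ncard : ℝ) ≤
      (∑ i, Real.sqrt (((N i).choose (2 * (m * r)) : ℝ) / (2 : ℝ) ^ (N i - 2 * (m * r) - 2))) *
        ∏ i, (2 : ℝ) ^ (Index (N i)).card := by
  classical
  obtain ⟨m, hm, h⟩ := Hit.card_Bad2
  refine ⟨m, hm, fun r N hinj hN p q hpq => ?_⟩
  have h1 := h r N hinj hN (fun w => p w.reverse) (fun w => q w.reverse) fun w => hpq _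
  simp only [card_Index]
  refine le_trans ?_ h1
  set S := {A : Fin r → Finset (List ℕ) | (∀ i, A i ⊆ Index (N i)) ∧
        ¬ LinearIndependent RealAlg (Fin.cons 1 (fun i => combination p q (N i) (A i)) : Fin (r + 1) → ℝ)} with hS
  have hinj2 : Function.Injective fun (A : Fin r → Finset (List ℕ)) (i : Fin r) => (A i).image List.reverse := by
    intro A B hAB
    funext i
    have := congrFun hAB i
    exact Finset.image_injective List.reverse_injective this
  have hsub : (fun (A : Fin r → Finset (List ℕ)) (i : Fin r) => (A i).image List.reverse) '' S ⊆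
      ↑(Hit.Bad (fun w => p w.reverse) (fun w => q w.reverse) N) := by
    rintro _ ⟨A, ⟨hA1, hA2⟩, rfl⟩
    rw [Finset.mem_coe, Hit.mem_Bad]
    refine ⟨fun i => ?_, ?_⟩
    · intro w hw
      rw [Finset.mem_image] at hw
      obtain ⟨t, ht, rfl⟩ := hw
      exact Hit.mem_W.2 (mem_Index.1 (hA1 i ht))
    · have e : Hit.famz (fun w => p w.reverse) (fun w => q w.reverse) N (fun i => (A i).image List.reverse) =
          (Fin.cons 1 (fun i => combination p q (N i) (A i)) : Fin (r + 1) → ℝ) := by
        rw [Hit.famz]
        congr 1
        funext i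
        exact (combination_eq p q (N i) (A i)).symm
      rw [e]
      exact hA2
  have h2 : S.ncard ≤ (Hit.Bad (fun w => p w.reverse) (fun w => q w.reverse) N).card := by
    rw [← Set.ncard_image_of_injective S hinj2, ← Set.ncard_coe_finset]
    exact Set.ncard_le_ncard hsub (Finset.finite_toSet _)
  exact_mod_cast h2

end Pool.Agent.Results.MP_2000e9_nt.RandomElements
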